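import Pool.Agent.Helper6_HF.Res
import Pool.Agent.Helper52_CD.VDefs

/-!
# The Singer conjecture for virtually residually poly-(infinite cyclic) groups

Let `M` be a closed aspherical manifold of dimension `n` whose fundamental group `G` is virtually
special or, more generally, virtually residually poly-(infinite cyclic): every nontrivial element of
some subgroup of finite index survives in a poly-(infinite cyclic) quotient of this subgroup.  Then
the Singer conjecture holds for `M`: the `i`-th `L²`-Betti number of the universal cover of `M` is
zero for all `i` with `2 i ≠ n`.

The manifold enters through the cellular chain complex of the universal cover of a finite CW complex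
of dimension at most `n` which is homotopy equivalent to `M`.  This is a finite complex `C` of free
modules over the integral group ring of `G` and a resolution of the integers.  We use Poincare
duality only with coefficients modulo two.

The class contains the virtually special groups (`of_virtuallySpecial` below) and the residually
unitriangular groups (`of_unitriangular` below), for example all finitely generated residually
torsion-free nilpotent groups.
-/

namespace Pool.Agent.Results.MP_f80465_gt.ResiduallyPolyZ

open Pool.Agent.Glue Pool.Agent.FB Pool.Agent.VSing Pool.Agent.RPZ

/-- If a subgroup of finite index of `G` is isomorphic to a subgroup of a finitely generated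
right-angled Artin or Coxeter group, then `G` has a residually poly-(infinite cyclic) subgroup of
finite index. -/
theorem of_virtuallySpecial {G : Type} [Group G] (hG : VirtuallySpecial G) :
    VirtuallyResiduallyPolyZ G :=
  Pool.Agent.HF.H6.of_special hG

/-- Groups that are residually unitriangular over the integers are residually poly-(infinite
cyclic). -/
theorem of_unitriangular {G : Type} [Group G] (h : ∀ g : G, g ≠ 1 → ∃ (m : ℕ)
    (ρ : G →* Matrix (Fin m) (Fin m) ℤ), (∀ x i j, j ≤ i → ρ x i j = if i = j then 1 else 0) ∧
      ρ g ≠ 1) : Pool.Agent.RPZ.ResiduallyPolyZ G :=
  Pool.Agent.HF.H6.rpz_iff.2 (Pool.Agent.HF.H6.rpz_of_resUni h)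

/-- Let `G` be a group which is virtually special or virtually residually poly-(infinite cyclic) and
`C` a finite aspherical complex over `G` which satisfies Poincare duality modulo two in dimension
`n`.  Then the `i`-th `L²`-Betti number of `C` is zero for all `i` with `2 i ≠ n`. -/
theorem result {G : Type} [Group G] (hG : VirtuallySpecial G ∨ VirtuallyResiduallyPolyZ G)
    {I : Type} [Fintype I] (C : Cells G I) {n : ℕ} (hC : Aspherical C) (hD : Duality C n) {i : ℕ}
    (hi : 2 * i ≠ n) : betti C i = 0 :=
  Pool.Agent.HF.H6.res (hG.elim of_virtuallySpecial id) C hC hD hi

end Pool.Agent.Results.MP_f80465_gt.ResiduallyPolyZ
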