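import Pool.Agent.Helper84_LatinLog.Main

set_option autoImplicit false

/-!
A lower bound, valid for every order and tending to infinity, for the largest number of entries
of a latin square of order `n` that lie in no transversal.

The cyclic square of odd order `n` is changed in the rows `4^g, 2·4^g, 3·4^g`, for all
`g < ⌊log₄ n⌋`, by scaled copies of one gadget on three rows. The displacement of every
transversal is an integer smaller than `n` in absolute value, divisible by `n`, whose base four
digits are the displacements of the single gadgets; so every gadget excludes two cells.
-/

namespace Pool.Agent.Helper84_Moved.UnboundedForAllOrders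

/-- `L` is a latin square of order `n`: every row and every column is injective. -/
def IsLatin {n : ℕ} (L : Fin n → Fin n → Fin n) : Prop :=
  (∀ i : Fin n, Function.Injective (L i)) ∧ (∀ j : Fin n, Function.Injective (fun i => L i j))

/-- The cells of `L` which lie in no transversal. A transversal is given by a permutation `σ`
(row `i` uses column `σ i`) whose cells carry pairwise different symbols. -/
def FreeCells {n : ℕ} (L : Fin n → Fin n → Fin n) : Set (Fin n × Fin n) :=
  {p | ¬ ∃ σ : Equiv.Perm (Fin n), Function.Injective (fun i => L i (σ i)) ∧ σ p.1 = p.2}

/-- For every `n ≥ 1` there is a latin square of order `n` with at least `2 ⌊log₄ n⌋` entries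
that lie in no transversal. -/
theorem result (n : ℕ) (hn : 0 < n) :
    ∃ L : Fin n → Fin n → Fin n, IsLatin L ∧ 2 * Nat.log 4 n ≤ (FreeCells L).ncard := by
  obtain ⟨L, h1, h2, h3⟩ := Pool.Agent.Helper84.LatinLog.log_bound n hn
  exact ⟨L, ⟨h1, h2⟩, h3⟩

end Pool.Agent.Helper84_Moved.UnboundedForAllOrders
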